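import Pool.Agent.Helper19.Fano.Main

/-!
# Alpha-invariants of K-semistable Fano varieties accumulate at `1 / (n + 1)` from above

The definitions are in `Pool.Agent.Helper19.Fano.Defs`. The varieties used in the proof are toric;
the proof is in the other files of `Pool.Agent.Helper19.Fano`.
-/

open Filter Topology
open Pool.Agent.Helper19.Fano

namespace Pool.Agent.Results.MP_f277c5_ag.AlphaAccumulation

/-- **Main theorem.** For every `n ≥ 2` there is a strictly decreasing sequence of alpha-invariants
of K-semistable klt Fano varieties of dimension `n` which converges to `1 / (n + 1)`. In particular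
the set `𝒜ₙ` of these alpha-invariants does not satisfy the descending chain condition, and there
is no gap in `𝒜ₙ` above `1 / (n + 1)`. -/
theorem result (n : ℕ) (hn : 2 ≤ n) :
    ∃ a : ℕ → ℝ, StrictAnti a ∧ (∀ k, a k ∈ alphaSet n) ∧
      Tendsto a atTop (𝓝 (1 / ((n : ℝ) + 1))) :=
  exists_strictAnti hn

end Pool.Agent.Results.MP_f277c5_ag.AlphaAccumulation
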